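import Pool.Agent.H7.KQ.Stmts

/-!
# Row `REA` of the board `kq` (MP_fd41b2): the final parts
-/

set_option autoImplicit false

open Finset

namespace Pool.KQ

open Pool.Agent.H23.KT Pool.Agent.H46.KW

lemma rea_e1_pos (p : ℕ) : 0 < e1 p := by
  unfold e1
  positivity

lemma rea_mem_non {V : Type} (G : SimpleGraph V) {X : Finset V} {u y : V} :
    y ∈ non G X u ↔ y ∈ X ∧ ¬ G.Adj u y := by
  classical
  unfold non
  rw [mem_filter]

lemma rea_symm {V : Type} (G : SimpleGraph V) (X Y : Finset V) :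
    ∑ u ∈ X, (non G Y u).card = ∑ y ∈ Y, (non G X y).card := by
  classical
  unfold non
  simp only [card_filter]
  rw [sum_comm]
  refine sum_congr rfl fun y _ => sum_congr rfl fun u _ => ?_
  by_cases h : G.Adj u y
  · rw [if_neg (fun h' => h' h), if_neg (fun h' => h' h.symm)]
  · rw [if_pos h, if_pos (fun h' => h h'.symm)]

/-- Nonneighbours in `X` are nonneighbours in `Y` or elements of `X \ Y`. -/
lemma rea_non_le {V : Type} [DecidableEq V] (G : SimpleGraph V) (X Y : Finset V) (u : V) :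
    ((non G X u).card : ℝ) ≤ (non G Y u).card + (non G (X \ Y) u).card := by
  have h : non G X u ⊆ non G Y u ∪ non G (X \ Y) u := by
    intro y hy
    obtain ⟨h1, h2⟩ := (rea_mem_non G).1 hy
    by_cases hY : y ∈ Y
    · exact mem_union_left _ ((rea_mem_non G).2 ⟨hY, h2⟩)
    · exact mem_union_right _ ((rea_mem_non G).2 ⟨mem_sdiff.2 ⟨h1, hY⟩, h2⟩)
  have := (card_le_card h).trans (card_union_le _ _)
  exact_mod_cast this

lemma rea_non_card {V : Type} (G : SimpleGraph V) (X : Finset V) (u : V) :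
    ((non G X u).card : ℝ) ≤ X.card := by
  have : non G X u ⊆ X := fun y hy => ((rea_mem_non G).1 hy).1
  exact_mod_cast card_le_card this

lemma rea_bad {V : Type} [DecidableEq V] (G : SimpleGraph V) {b : ℕ} (A P : Fin b → Finset V)
    (s : ℝ) (h : ∀ i, ∀ u ∈ A i \ P i, ∃ l, l ≠ i ∧ s ≤ ((non G (A l) u).card : ℝ)) :
    (∑ i, ((A i \ P i).card : ℝ)) * s ≤ (tot G A : ℝ) := by
  unfold tot
  push_cast
  rw [Finset.sum_mul]
  refine Finset.sum_le_sum fun i _ => ?_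
  rw [Finset.sum_comm]
  calc ((A i \ P i).card : ℝ) * s = ∑ u ∈ A i \ P i, s := by rw [sum_const, nsmul_eq_mul]
    _ ≤ ∑ u ∈ A i \ P i, ∑ k ∈ univ.erase i, ((non G (A k) u).card : ℝ) := by
      refine sum_le_sum fun u hu => ?_
      obtain ⟨l, hl, hsl⟩ := h i u hu
      exact hsl.trans (single_le_sum (f := fun k => ((non G (A k) u).card : ℝ))
        (fun _ _ => Nat.cast_nonneg _) (mem_erase.2 ⟨hl, mem_univ _⟩))
    _ ≤ ∑ u ∈ A i, ∑ k ∈ univ.erase i, ((non G (A k) u).card : ℝ) :=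
      sum_le_sum_of_subset_of_nonneg sdiff_subset
        (fun _ _ _ => sum_nonneg fun _ _ => Nat.cast_nonneg _)

/-- One pair of parts. -/
lemma rea_pair {V : Type} [DecidableEq V] (G : SimpleGraph V) (Pi Pk Ai Ak : Finset V) (M : ℝ)
    (h1 : ∀ u ∈ Pi, ((non G Pk u).card : ℝ) ≤ M) (h2 : ∀ y ∈ Pk, ((non G Pi y).card : ℝ) ≤ M) :
    ∑ u ∈ Pi, ((non G Pk u).card : ℝ) ≤
      ∑ u ∈ Ai, ((non G Ak u).card : ℝ) + ((Pi \ Ai).card : ℝ) * M + ((Pk \ Ak).card : ℝ) * M := by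
  have hsp : ∑ u ∈ Pi, ((non G Pk u).card : ℝ) =
      ∑ u ∈ Pi \ Ai, ((non G Pk u).card : ℝ) + ∑ u ∈ Pi ∩ Ai, ((non G Pk u).card : ℝ) := by
    rw [← sum_sdiff (inter_subset_left : Pi ∩ Ai ⊆ Pi), sdiff_inter_self_left]
  have hA : ∑ u ∈ Pi \ Ai, ((non G Pk u).card : ℝ) ≤ ((Pi \ Ai).card : ℝ) * M := by
    calc ∑ u ∈ Pi \ Ai, ((non G Pk u).card : ℝ) ≤ ∑ u ∈ Pi \ Ai, M :=
          sum_le_sum fun u hu => h1 u (mem_sdiff.1 hu).1
      _ = ((Pi \ Ai).card : ℝ) * M := by rw [sum_const, nsmul_eq_mul]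
  have hB : ∑ u ∈ Pi ∩ Ai, ((non G Pk u).card : ℝ) ≤
      ∑ u ∈ Pi ∩ Ai, ((non G Ak u).card : ℝ) + ∑ u ∈ Pi ∩ Ai, ((non G (Pk \ Ak) u).card : ℝ) := by
    rw [← sum_add_distrib]
    exact sum_le_sum fun u _ => rea_non_le G Pk Ak u
  have hC : ∑ u ∈ Pi ∩ Ai, ((non G Ak u).card : ℝ) ≤ ∑ u ∈ Ai, ((non G Ak u).card : ℝ) :=
    sum_le_sum_of_subset_of_nonneg inter_subset_right (fun _ _ _ => Nat.cast_nonneg _)
  have hD : ∑ u ∈ Pi ∩ Ai, ((non G (Pk \ Ak) u).card : ℝ) ≤ ((Pk \ Ak).card : ℝ) * M := by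
    calc ∑ u ∈ Pi ∩ Ai, ((non G (Pk \ Ak) u).card : ℝ)
        ≤ ∑ u ∈ Pi, ((non G (Pk \ Ak) u).card : ℝ) :=
          sum_le_sum_of_subset_of_nonneg inter_subset_left (fun _ _ _ => Nat.cast_nonneg _)
      _ = ∑ y ∈ Pk \ Ak, ((non G Pi y).card : ℝ) := by exact_mod_cast rea_symm G Pi (Pk \ Ak)
      _ ≤ ∑ y ∈ Pk \ Ak, M := sum_le_sum fun y hy => h2 y (mem_sdiff.1 hy).1
      _ = ((Pk \ Ak).card : ℝ) * M := by rw [sum_const, nsmul_eq_mul]
  rw [hsp]
  linarith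

lemma rea_tot {V : Type} [DecidableEq V] (G : SimpleGraph V) {b : ℕ} (A P : Fin b → Finset V)
    (M c : ℝ) (hM : 0 ≤ M) (hc : 0 ≤ c)
    (h : ∀ i, ∀ u ∈ P i, ∀ k, k ≠ i → ((non G (P k) u).card : ℝ) ≤ M)
    (hcd : ∀ i, ((P i \ A i).card : ℝ) ≤ c) :
    (tot G P : ℝ) ≤ tot G A + b ^ 2 * (2 * (c * M)) := by
  have hcM : 0 ≤ c * M := mul_nonneg hc hM
  unfold tot
  push_cast
  calc ∑ i, ∑ k ∈ univ.erase i, ∑ u ∈ P i, ((non G (P k) u).card : ℝ)
      ≤ ∑ i, ∑ k ∈ univ.erase i, (∑ u ∈ A i, ((non G (A k) u).card : ℝ) + 2 * (c * M)) := by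
        refine sum_le_sum fun i _ => sum_le_sum fun k hk => ?_
        have hki : k ≠ i := (mem_erase.1 hk).1
        have h1 := rea_pair G (P i) (P k) (A i) (A k) M (fun u hu => h i u hu k hki)
          (fun y hy => h k y hy i hki.symm)
        have h2 : ((P i \ A i).card : ℝ) * M ≤ c * M := mul_le_mul_of_nonneg_right (hcd i) hM
        have h3 : ((P k \ A k).card : ℝ) * M ≤ c * M := mul_le_mul_of_nonneg_right (hcd k) hM
        linarith
    _ = ∑ i, ∑ k ∈ univ.erase i, ∑ u ∈ A i, ((non G (A k) u).card : ℝ) +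
          ∑ i : Fin b, ∑ _k ∈ univ.erase i, 2 * (c * M) := by
        rw [← sum_add_distrib]
        refine sum_congr rfl fun i _ => ?_
        rw [sum_add_distrib]
    _ ≤ _ := by
        have h4 : ∑ i : Fin b, ∑ _k ∈ univ.erase i, 2 * (c * M) ≤
            ∑ i : Fin b, ∑ _k : Fin b, 2 * (c * M) := by
          refine sum_le_sum fun i _ => ?_
          exact sum_le_sum_of_subset_of_nonneg (erase_subset _ _) (fun _ _ _ => by linarith)
        have h5 : ∑ i : Fin b, ∑ _k : Fin b, 2 * (c * M) = (b : ℝ) ^ 2 * (2 * (c * M)) := by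
          rw [sum_const, sum_const, card_univ, Fintype.card_fin, nsmul_eq_mul, nsmul_eq_mul]
          ring
        linarith

theorem rea (h1 : RPIStmt) : REAStmt := by
  intro p C hC
  have he1 := rea_e1_pos p
  set C₂ : ℝ := C + 2 * C / e1 p with hC₂
  have hC2 : 0 < C₂ := by positivity
  obtain ⟨a₁, ha₁⟩ := h1 p C
  refine ⟨C₂ + C + ((p + 3 : ℕ) : ℝ) ^ 2 * (2 * (C₂ * e1 p)), by positivity, ?_⟩
  intro e he he2
  refine ⟨max (max a₁ 1) (max (⌈4 * C₂ / e1 p⌉₊) (⌈2 * C₂ / e⌉₊)), ?_⟩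
  intro a ha V _ G W A hCB hA hAW hsz hWA htot
  have haa : a₁ ≤ a := le_trans (le_trans (le_max_left _ _) (le_max_left _ _)) ha
  have ha1 : 1 ≤ a := le_trans (le_trans (le_max_right _ _) (le_max_left _ _)) ha
  have ha1' : (1 : ℝ) ≤ a := by exact_mod_cast ha1
  have ha0 : (0 : ℝ) < a := by linarith
  have hb1 : 4 * C₂ ≤ e1 p * a := by
    have h2 : ⌈4 * C₂ / e1 p⌉₊ ≤ a := le_trans (le_trans (le_max_left _ _) (le_max_right _ _)) ha
    have h3 : 4 * C₂ / e1 p ≤ a := (Nat.ceil_le).1 h2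
    rw [div_le_iff₀ he1] at h3
    linarith
  have hb2 : 2 * C₂ ≤ e * a := by
    have h2 : ⌈2 * C₂ / e⌉₊ ≤ a := le_trans (le_trans (le_max_right _ _) (le_max_right _ _)) ha
    have h3 : 2 * C₂ / e ≤ a := (Nat.ceil_le).1 h2
    rw [div_le_iff₀ he] at h3
    linarith
  obtain ⟨hR1, hR2⟩ := ha₁ a haa G W A hCB hA hAW (fun i => by
    obtain ⟨h3, h4⟩ := hsz i
    constructor
    · nlinarith
    · nlinarith) htot
  classical
  set P : Fin (p + 3) → Finset V := fun i =>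
    W.filter fun u => ∀ l, l ≠ i → ((non G (A l) u).card : ℝ) ≤ e1 p / 2 * a with hP
  have hmP : ∀ i u, u ∈ P i ↔ u ∈ W ∧ ∀ l, l ≠ i → ((non G (A l) u).card : ℝ) ≤ e1 p / 2 * a := by
    intro i u
    rw [hP]
    simp only [mem_filter]
  -- disjoint
  have hdis : ∀ i j u, i ≠ j → u ∈ P i → u ∈ P j → False := by
    intro i j u hij hi hj
    obtain ⟨hW, hi⟩ := (hmP i u).1 hi
    obtain ⟨_, hj⟩ := (hmP j u).1 hj
    obtain ⟨l, hl⟩ := hR1 u hW
    by_cases hli : l = i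
    · exact absurd (hj l (hli ▸ hij)) (not_le.2 hl)
    · exact absurd (hi l hli) (not_le.2 hl)
  have hbad : ∀ i u, u ∈ W → u ∉ P i → ∃ l, l ≠ i ∧ e1 p / 2 * a < ((non G (A l) u).card : ℝ) := by
    intro i u hW hu
    by_contra hcon
    push Not at hcon
    exact hu ((hmP i u).2 ⟨hW, hcon⟩)
  -- the small set
  have hsum : ∑ i, ((A i \ P i).card : ℝ) ≤ 2 * C / e1 p := by
    have h3 := rea_bad G A P (e1 p / 2 * a) (fun i u hu => by
      obtain ⟨hu1, hu2⟩ := mem_sdiff.1 hu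
      obtain ⟨l, hl, hl2⟩ := hbad i u (hAW i hu1) hu2
      exact ⟨l, hl, hl2.le⟩)
    have h4 : (∑ i, ((A i \ P i).card : ℝ)) * (e1 p / 2 * a) ≤ C * a := h3.trans htot
    have h5 : (∑ i, ((A i \ P i).card : ℝ)) * e1 p ≤ 2 * C := by
      have h6 : ((∑ i, ((A i \ P i).card : ℝ)) * e1 p) * a ≤ (2 * C) * a := by linarith
      exact le_of_mul_le_mul_right h6 ha0
    rw [le_div_iff₀ he1]
    exact h5
  set D : Finset V := (W \ un A) ∪ univ.biUnion (fun i => A i \ P i) with hD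
  have hDc : (D.card : ℝ) ≤ C₂ := by
    have h3 : D.card ≤ (W \ un A).card + ∑ i, (A i \ P i).card :=
      (card_union_le _ _).trans (Nat.add_le_add_left card_biUnion_le _)
    have h4 : (D.card : ℝ) ≤ ((W \ un A).card : ℝ) + ∑ i, ((A i \ P i).card : ℝ) := by
      exact_mod_cast h3
    linarith
  have hAP : ∀ i, ((A i \ P i).card : ℝ) ≤ C₂ := by
    intro i
    refine le_trans ?_ hDc
    have : A i \ P i ⊆ D := fun u hu => mem_union_right _ (mem_biUnion.2 ⟨i, mem_univ _, hu⟩)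
    exact_mod_cast card_le_card this
  have hmem : ∀ u ∈ W, (∀ i, u ∈ A i → u ∉ P i) → u ∈ D := by
    intro u hW hu
    by_cases hA' : u ∈ un A
    · obtain ⟨i, _, hi⟩ := mem_biUnion.1 hA'
      exact mem_union_right _ (mem_biUnion.2 ⟨i, mem_univ _, mem_sdiff.2 ⟨hi, hu i hi⟩⟩)
    · exact mem_union_left _ (mem_sdiff.2 ⟨hW, hA'⟩)
  have hPA : ∀ i, ((P i \ A i).card : ℝ) ≤ C₂ := by
    intro i
    refine le_trans ?_ hDc
    have : P i \ A i ⊆ D := by
      intro u hu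
      obtain ⟨hu1, hu2⟩ := mem_sdiff.1 hu
      refine hmem u ((hmP i u).1 hu1).1 fun j hj hPj => ?_
      have hij : i ≠ j := fun h => hu2 (h ▸ hj)
      exact hdis i j u hij hu1 hPj
    exact_mod_cast card_le_card this
  have hmis : ∀ i, ∀ u ∈ P i, ∀ k, k ≠ i → ((non G (P k) u).card : ℝ) ≤ e1 p * a := by
    intro i u hu k hk
    have h3 := rea_non_le G (P k) (A k) u
    have h4 := ((hmP i u).1 hu).2 k hk
    have h5 := (rea_non_card G (P k \ A k) u).trans (hPA k)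
    linarith
  refine ⟨P, W \ un P, ?_⟩
  refine ⟨⟨?_, ?_⟩, ?_, ?_, ?_, ?_, hmis, ?_, ?_, ?_⟩
  · intro i j hij
    rw [disjoint_left]
    intro u hi hj
    exact hdis i j u hij hi hj
  · intro i u hu w hw
    obtain ⟨hu1, hu2⟩ := (hmP i u).1 hu
    obtain ⟨hw1, hw2⟩ := (hmP i w).1 hw
    exact hR2 i u hu1 w hw1 hu2 hw2
  · intro i
    rw [disjoint_left]
    intro u hu hu'
    exact (mem_sdiff.1 hu').2 (mem_biUnion.2 ⟨i, mem_univ _, hu⟩)
  · intro u
    constructor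
    · intro hW
      by_cases h : u ∈ un P
      · obtain ⟨i, _, hi⟩ := mem_biUnion.1 h
        exact Or.inr ⟨i, hi⟩
      · exact Or.inl (mem_sdiff.2 ⟨hW, h⟩)
    · rintro (h | ⟨i, hi⟩)
      · exact (mem_sdiff.1 h).1
      · exact ((hmP i u).1 hi).1
  · intro i
    have h3 : ((A i).card : ℝ) ≤ (P i).card + (A i \ P i).card := by
      have h4 : A i ⊆ P i ∪ (A i \ P i) := fun u hu => by
        by_cases h : u ∈ P i
        · exact mem_union_left _ h
        · exact mem_union_right _ (mem_sdiff.2 ⟨hu, h⟩)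
      exact_mod_cast (card_le_card h4).trans (card_union_le _ _)
    have h5 := hAP i
    have h6 := (hsz i).1
    nlinarith
  · intro i
    have h3 : ((P i).card : ℝ) ≤ (A i).card + (P i \ A i).card := by
      have h4 : P i ⊆ A i ∪ (P i \ A i) := fun u hu => by
        by_cases h : u ∈ A i
        · exact mem_union_left _ h
        · exact mem_union_right _ (mem_sdiff.2 ⟨hu, h⟩)
      exact_mod_cast (card_le_card h4).trans (card_union_le _ _)
    have h5 := hPA i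
    have h6 := (hsz i).2
    nlinarith
  · have h3 := rea_tot G A P (e1 p * a) C₂ (by positivity) hC2.le hmis hPA
    calc (tot G P : ℝ) ≤ tot G A + ((p + 3 : ℕ) : ℝ) ^ 2 * (2 * (C₂ * (e1 p * a))) := h3
      _ ≤ C * a + ((p + 3 : ℕ) : ℝ) ^ 2 * (2 * (C₂ * (e1 p * a))) := by linarith
      _ ≤ C₂ * a + C * a + ((p + 3 : ℕ) : ℝ) ^ 2 * (2 * (C₂ * (e1 p * a))) := by
          have : 0 ≤ C₂ * a := by positivity
          linarith
      _ = (C₂ + C + ((p + 3 : ℕ) : ℝ) ^ 2 * (2 * (C₂ * e1 p))) * a := by ring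
  · have h3 : W \ un P ⊆ D := by
      intro u hu
      obtain ⟨hu1, hu2⟩ := mem_sdiff.1 hu
      exact hmem u hu1 fun i _ hi => hu2 (mem_biUnion.2 ⟨i, mem_univ _, hi⟩)
    have h4 : ((W \ un P).card : ℝ) ≤ D.card := by exact_mod_cast card_le_card h3
    have h5 : (0 : ℝ) ≤ ((p + 3 : ℕ) : ℝ) ^ 2 * (2 * (C₂ * e1 p)) := by positivity
    linarith
  · intro u hu i
    obtain ⟨hu1, hu2⟩ := mem_sdiff.1 hu
    obtain ⟨l, hl, hl2⟩ := hbad i u hu1 (fun h => hu2 (mem_biUnion.2 ⟨i, mem_univ _, h⟩))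
    refine ⟨l, hl, ?_⟩
    have h3 := rea_non_le G (A l) (P l) u
    have h5 := (rea_non_card G (A l \ P l) u).trans (hAP l)
    linarith

end Pool.KQ
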